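import Pool.Agent.Run7.h755.LO.Ord
import Pool.Agent.Run7.h755.MG.Form

/-! # The formula for the least elements of balls (helper755) -/

set_option autoImplicit false

namespace Pool.Agent.Run7.h755.LO

open Function
open Pool.Agent.Y924.EL Pool.Agent.Y924.UF
open Pool.Agent.Run7.h755.MG
open Pool.Agent.Results.MP_db9079_lc.UniformFiniteness

variable {p : ℕ} [hp : Fact p.Prime]

/-- `φ (x_a, x_b)`; the parameters of `φ` are `x_102, x_103, ...` -/
def RF (φ : Fm) (a b : ℕ) : Fm :=
  .ex 100 (.ex 101 (.and (.eq 100 a) (.and (.eq 101 b) (ren (· + 100) φ))))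

theorem sat_RF (O : Set (LaurentSeries (ZMod p))) (φ : Fm) {a b : ℕ} (ha : a < 100) (hb : b < 100)
    (v : ℕ → LaurentSeries (ZMod p)) :
    Sat O (RF φ a b) v ↔ Sat O φ (update (update (fun i => v (i + 100)) 0 (v a)) 1 (v b)) := by
  have hinj : Injective (fun i : ℕ => i + 100) := fun i j h => by
    have : i + 100 = j + 100 := h
    omega
  have hc : ∀ x y : LaurentSeries (ZMod p),
      (update (update v 100 x) 101 y) ∘ (fun i : ℕ => i + 100) =
      update (update (fun i => v (i + 100)) 0 x) 1 y := by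
    intro x y
    have h1 := Function.update_comp_eq_of_injective (update v 100 x) hinj 1 y
    have h2 := Function.update_comp_eq_of_injective v hinj 0 x
    rw [show (101 : ℕ) = (fun i : ℕ => i + 100) 1 from rfl, h1]
    rw [show (100 : ℕ) = (fun i : ℕ => i + 100) 0 from rfl, h2]
    rfl
  simp only [RF, Sat, update_self, update_of_ne (show a ≠ 100 by omega),
    update_of_ne (show b ≠ 100 by omega), update_of_ne (show a ≠ 101 by omega),
    update_of_ne (show b ≠ 101 by omega), update_of_ne (show (100 : ℕ) ≠ 101 by omega),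
    Pool.Agent.Y514.UF.sat_ren _ O (fun i : ℕ => i + 100) hinj, hc]
  constructor
  · rintro ⟨x, y, rfl, rfl, h⟩
    exact h
  · intro h
    exact ⟨_, _, rfl, rfl, h⟩

/-- `x_0` is a least element of its ball -/
def MMF (p : ℕ) (φ : Fm) : Fm :=
  .and (RF φ 0 0) (.and (.ex 12 (.and (OTF (p + 1)) (.mul 66 12 0)))
    (.neg (.ex 11 (.and (RF φ 11 11) (.and (.ex 12 (.and (OTF (p + 1))
      (.ex 13 (.and (.mul 65 12 13) (.add 0 13 11))))) (.neg (RF φ 0 11)))))))

/-- the parameters -/
noncomputable def par (v : ℕ → LaurentSeries (ZMod p)) (k l : ℤ) : ℕ → LaurentSeries (ZMod p) :=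
  fun i => if i = 64 then HahnSeries.single (1 : ℤ) (1 : ZMod p) else
    if i = 65 then HahnSeries.single k (1 : ZMod p) else
      if i = 66 then HahnSeries.single l (1 : ZMod p) else v (i - 100)

theorem mem_OT (z : LaurentSeries (ZMod p)) :
    OT (p + 1) (HahnSeries.single (1 : ℤ) (1 : ZMod p)) z ↔ z ∈ OO p :=
  (((Pool.Agent.Y748.UF.t_VAL Pool.Agent.Y675.UF.t_ROOT) p).1 z).symm

theorem dfn_MMF (P : Set (LaurentSeries (ZMod p))) (φ : Fm) (v : ℕ → LaurentSeries (ZMod p))
    (R : LaurentSeries (ZMod p) → LaurentSeries (ZMod p) → Prop)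
    (hR : ∀ x y, Sat P φ (update (update v 0 x) 1 y) ↔ R x y) (k l : ℤ) :
    Dfn p P (MMF p φ) (par v k l) = FM R k l := by
  ext x
  change Sat P (MMF p φ) (update (par v k l) 0 x) ↔ _
  have s1 : ∀ u : ℕ → LaurentSeries (ZMod p), (fun i => u (i + 100)) = v →
      ∀ a b : ℕ, a < 100 → b < 100 → (Sat P (RF φ a b) u ↔ R (u a) (u b)) := by
    intro u hu a b ha hb
    rw [sat_RF P φ ha hb, hu, hR]
  have p1 : (fun i => update (par v k l) 0 x (i + 100)) = v := by
    funext i
    rw [update_of_ne (by omega)]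
    simp only [par]
    rw [if_neg (by omega), if_neg (by omega), if_neg (by omega), Nat.add_sub_cancel]
  have p2 : ∀ y, (fun i => update (update (par v k l) 0 x) 11 y (i + 100)) = v := by
    intro y
    rw [← p1]
    funext i
    rw [update_of_ne (show i + 100 ≠ 11 by omega), p1]
  have o1 : Sat P (.ex 12 (.and (OTF (p + 1)) (.mul 66 12 0))) (update (par v k l) 0 x) ↔
      V l x := by
    have h1 := Pool.Agent.Y697.UF.ball_single l 0 x
    have h2 : Pool.Agent.Y697.UF.Ag l 0 x ↔ V l x := by
      constructor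
      · intro h
        have := V_of_Ag h
        rwa [sub_zero] at this
      · intro h
        refine Ag_of_V ?_
        rwa [sub_zero]
    rw [← h2, ← h1]
    simp only [Sat, Pool.Agent.Y824.UF.sat_OTF, add_zero]
    refine exists_congr fun z => ?_
    simp [par, mem_OT]
  have o2 : ∀ y, Sat P (.ex 12 (.and (OTF (p + 1)) (.ex 13 (.and (.mul 65 12 13)
      (.add 0 13 11))))) (update (update (par v k l) 0 x) 11 y) ↔ V k (y - x) := by
    intro y
    have h1 := Pool.Agent.Y697.UF.ball_single k x y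
    have h2 : Pool.Agent.Y697.UF.Ag k x y ↔ V k (y - x) := ⟨V_of_Ag, Ag_of_V⟩
    rw [← h2, ← h1]
    simp only [Sat, Pool.Agent.Y824.UF.sat_OTF]
    refine exists_congr fun z => ?_
    simp [par, mem_OT, add_comm]
  have e : Sat P (MMF p φ) (update (par v k l) 0 x) ↔
      (Sat P (RF φ 0 0) (update (par v k l) 0 x) ∧
        Sat P (.ex 12 (.and (OTF (p + 1)) (.mul 66 12 0))) (update (par v k l) 0 x) ∧
        ¬ ∃ y, Sat P (RF φ 11 11) (update (update (par v k l) 0 x) 11 y) ∧
          Sat P (.ex 12 (.and (OTF (p + 1)) (.ex 13 (.and (.mul 65 12 13)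
            (.add 0 13 11))))) (update (update (par v k l) 0 x) 11 y) ∧
          ¬ Sat P (RF φ 0 11) (update (update (par v k l) 0 x) 11 y)) := Iff.rfl
  rw [e, o1, s1 _ p1 0 0 (by norm_num) (by norm_num)]
  simp only [o2, s1 _ (p2 _) 11 11 (by norm_num) (by norm_num),
    s1 _ (p2 _) 0 11 (by norm_num) (by norm_num), update_self,
    update_of_ne (show (0 : ℕ) ≠ 11 by norm_num)]
  unfold FM
  rw [Set.mem_ofPred_eq]
  push Not
  exact Iff.rfl

/-- a tame structure has no infinite linear order with closed initial segments -/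
theorem finite_of_tame (P : Set (LaurentSeries (ZMod p))) (hT : Tame p P) (φ : Fm)
    (v : ℕ → LaurentSeries (ZMod p))
    (R : LaurentSeries (ZMod p) → LaurentSeries (ZMod p) → Prop)
    (hR : ∀ x y, Sat P φ (update (update v 0 x) 1 y) ↔ R x y) (hL : LinOrd R)
    (hc : ∀ y, R y y → ClosedSet p {x | R x y}) : {x | R x x}.Finite := by
  obtain ⟨N, hN⟩ := hT.1 (MMF p φ)
  refine bound R hL hc N fun k l => ?_
  have h1 := hN (par v k l)
  rw [dfn_MMF P φ v R hR k l] at h1
  exact h1 (FM_finite R hL k l)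

theorem linOrd_swap {K : Type} {R : K → K → Prop} (h : LinOrd R) : LinOrd fun x y => R y x :=
  ⟨fun x y hxy => (h.1 y x hxy).symm, fun x y hxy hyx => h.2.1 x y hyx hxy,
    fun x y z hxy hyz => h.2.2.1 z y x hyz hxy, fun x y hx hy => h.2.2.2 y x hy hx⟩

/-- the same for orders with closed initial or with closed final segments -/
theorem finite_of_tame' (P : Set (LaurentSeries (ZMod p))) (hT : Tame p P) (φ : Fm)
    (v : ℕ → LaurentSeries (ZMod p))
    (R : LaurentSeries (ZMod p) → LaurentSeries (ZMod p) → Prop)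
    (hR : ∀ x y, Sat P φ (update (update v 0 x) 1 y) ↔ R x y) (hL : LinOrd R)
    (hc : (∀ y, R y y → ClosedSet p {x | R x y}) ∨ (∀ y, R y y → ClosedSet p {x | R y x})) :
    {x | R x x}.Finite := by
  rcases hc with hc | hc
  · exact finite_of_tame P hT φ v R hR hL hc
  · refine finite_of_tame P hT (RF φ 1 0) (fun i => v (i - 100)) (fun x y => R y x)
      (fun x y => ?_) (linOrd_swap hL) hc
    rw [sat_RF P φ (by norm_num) (by norm_num), ← hR]
    have e : (fun i => update (update (fun i => v (i - 100)) 0 x) 1 y (i + 100)) = v := by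
      funext i
      rw [update_of_ne (by omega), update_of_ne (by omega), Nat.add_sub_cancel]
    rw [e, update_self, update_of_ne (show (0 : ℕ) ≠ 1 by norm_num), update_self]

end Pool.Agent.Run7.h755.LO
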