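import Pool.Agent.Run7.h755.LO.Form

/-! # Linear orders, the local version (helper755) -/

set_option autoImplicit false

namespace Pool.Agent.Run7.h755.LO

open Function
open Pool.Agent.Y924.EL Pool.Agent.Y924.UF
open Pool.Agent.Run7.h755.MG
open Pool.Agent.Results.MP_db9079_lc.UniformFiniteness

variable {p : ℕ} [hp : Fact p.Prime]

/-- the point `x_a` is in the ball `x_66 + x_65 O` -/
def BF (p a : ℕ) : Fm :=
  .ex 12 (.and (OTF (p + 1)) (.ex 13 (.and (.mul 65 12 13) (.add 66 13 a))))

/-- the relation `R` on the ball -/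
def LF (p : ℕ) (φ : Fm) : Fm := .and (RF φ 0 1) (.and (BF p 0) (BF p 1))

/-- the parameters -/
noncomputable def parB (v : ℕ → LaurentSeries (ZMod p)) (b c : LaurentSeries (ZMod p)) :
    ℕ → LaurentSeries (ZMod p) :=
  fun i => if i = 64 then HahnSeries.single (1 : ℤ) (1 : ZMod p) else
    if i = 65 then b else if i = 66 then c else v (i - 100)

/-- `x` is in the ball `c + b O` -/
def Ball (b c x : LaurentSeries (ZMod p)) : Prop := ∃ z ∈ ValRing p, c + b * z = x

theorem sat_LF (P : Set (LaurentSeries (ZMod p))) (φ : Fm) (v : ℕ → LaurentSeries (ZMod p))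
    (R : LaurentSeries (ZMod p) → LaurentSeries (ZMod p) → Prop)
    (hR : ∀ x y, Sat P φ (update (update v 0 x) 1 y) ↔ R x y) (b c x y : LaurentSeries (ZMod p)) :
    Sat P (LF p φ) (update (update (parB v b c) 0 x) 1 y) ↔
      R x y ∧ Ball b c x ∧ Ball b c y := by
  have s1 : Sat P (RF φ 0 1) (update (update (parB v b c) 0 x) 1 y) ↔ R x y := by
    rw [sat_RF P φ (by norm_num) (by norm_num), ← hR]
    have e : (fun i => update (update (parB v b c) 0 x) 1 y (i + 100)) = v := by
      funext i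
      rw [update_of_ne (by omega), update_of_ne (by omega)]
      simp only [parB]
      rw [if_neg (by omega), if_neg (by omega), if_neg (by omega), Nat.add_sub_cancel]
    rw [e, update_self, update_of_ne (show (0 : ℕ) ≠ 1 by norm_num), update_self]
  have s2 : Sat P (BF p 0) (update (update (parB v b c) 0 x) 1 y) ↔ Ball b c x := by
    simp only [BF, Sat, Pool.Agent.Y824.UF.sat_OTF]
    refine exists_congr fun z => ?_
    simp [parB, mem_OT]
    exact fun _ => Iff.rfl
  have s3 : Sat P (BF p 1) (update (update (parB v b c) 0 x) 1 y) ↔ Ball b c y := by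
    simp only [BF, Sat, Pool.Agent.Y824.UF.sat_OTF]
    refine exists_congr fun z => ?_
    simp [parB, mem_OT]
    exact fun _ => Iff.rfl
  have e : Sat P (LF p φ) (update (update (parB v b c) 0 x) 1 y) ↔
      (Sat P (RF φ 0 1) (update (update (parB v b c) 0 x) 1 y) ∧
        Sat P (BF p 0) (update (update (parB v b c) 0 x) 1 y) ∧
          Sat P (BF p 1) (update (update (parB v b c) 0 x) 1 y)) := Iff.rfl
  rw [e, s1, s2, s3]

theorem ball_self (b c : LaurentSeries (ZMod p)) : Ball b c c :=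
  ⟨0, ⟨0, map_zero _⟩, by rw [mul_zero, add_zero]⟩

/-- the local version -/
theorem finite_loc (P : Set (LaurentSeries (ZMod p))) (hT : Tame p P) (φ : Fm)
    (v : ℕ → LaurentSeries (ZMod p))
    (R : LaurentSeries (ZMod p) → LaurentSeries (ZMod p) → Prop)
    (hR : ∀ x y, Sat P φ (update (update v 0 x) 1 y) ↔ R x y) (hL : LinOrd R)
    (hc : ∀ x, R x x → ∃ b : LaurentSeries (ZMod p), b ≠ 0 ∧
      ((∀ y, R y y → ClosedSet p {z | R z y ∧ Ball b x z}) ∨
        (∀ y, R y y → ClosedSet p {z | R y z ∧ Ball b x z}))) :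
    {x | R x x}.Finite := by
  have hD : Dfn p P (RF φ 0 0) (fun i => v (i - 100)) = {x | R x x} := by
    ext x
    change Sat P (RF φ 0 0) (update (fun i => v (i - 100)) 0 x) ↔ R x x
    rw [sat_RF P φ (by norm_num) (by norm_num), ← hR]
    have e : (fun i => update (fun i => v (i - 100)) 0 x (i + 100)) = v := by
      funext i
      rw [update_of_ne (by omega), Nat.add_sub_cancel]
    rw [e, update_self]
  have hfin := hT.2 (RF φ 0 0) (fun i => v (i - 100)) (by
    rw [hD]
    refine scattered_of_discr p _ fun x hx => ?_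
    obtain ⟨b, hb, hbc⟩ := hc x hx
    have h1 : {z | R z z ∧ Ball b x z}.Finite := by
      have h2 := finite_of_tame' P hT (LF p φ) (parB v b x)
        (fun y z => R y z ∧ Ball b x y ∧ Ball b x z)
        (fun y z => sat_LF P φ v R hR b x y z)
        ⟨fun y z h => ⟨⟨(hL.1 _ _ h.1).1, h.2.1, h.2.1⟩, ⟨(hL.1 _ _ h.1).2, h.2.2, h.2.2⟩⟩,
          fun y z h h' => hL.2.1 _ _ h.1 h'.1,
          fun y z w h h' => ⟨hL.2.2.1 _ _ _ h.1 h'.1, h.2.1, h'.2.2⟩,
          fun y z h h' => (hL.2.2.2 y z h.1 h'.1).imp (fun h3 => ⟨h3, h.2.1, h'.2.1⟩)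
            fun h3 => ⟨h3, h'.2.1, h.2.1⟩⟩ (by
          rcases hbc with h3 | h3
          · refine Or.inl fun y hy => ?_
            have e : {z | R z y ∧ Ball b x z ∧ Ball b x y} = {z | R z y ∧ Ball b x z} := by
              ext z
              exact ⟨fun h => ⟨h.1, h.2.1⟩, fun h => ⟨h.1, h.2, hy.2.1⟩⟩
            rw [e]
            exact h3 y hy.1
          · refine Or.inr fun y hy => ?_
            have e : {z | R y z ∧ Ball b x y ∧ Ball b x z} = {z | R y z ∧ Ball b x z} := by
              ext z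
              exact ⟨fun h => ⟨h.1, h.2.2⟩, fun h => ⟨h.1, hy.2.1, h.2⟩⟩
            rw [e]
            exact h3 y hy.1)
      refine h2.subset ?_
      rintro z ⟨h3, h4⟩
      exact ⟨h3, h4, h4⟩
    obtain ⟨r, hr⟩ := Pool.Agent.Y697.UF.ball_of b hb
    obtain ⟨k, hk⟩ : ∃ k : ℤ, ∀ z, R z z → Ball b x z → V k (z - x) → z = x := by
      obtain ⟨k, hk⟩ := (h1.image fun z => (z - x).order).bddAbove
      refine ⟨k + 1, fun z hz hz' hV => ?_⟩
      by_contra hne
      have h5 := hk (Set.mem_image_of_mem _ (show z ∈ {z | R z z ∧ Ball b x z} from ⟨hz, hz'⟩))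
      exact coeff_order_ne (sub_ne_zero.2 hne) (hV _ (by omega))
    refine ⟨HahnSeries.single (max k r) (1 : ZMod p), Pool.Agent.R794.FP.single_ne _, ?_⟩
    rintro y hy ⟨z, hz, hxy⟩
    have h6 : V (max k r) (y - x) := V_of_Ag
      ((Pool.Agent.Y697.UF.ball_single (max k r) x y).1 ⟨z, hz, by rw [← hxy]; ring⟩)
    refine hk y hy ?_ (h6.mono (le_max_left _ _))
    obtain ⟨w, hw, hw'⟩ := hr x y (Ag_of_V (h6.mono (le_max_right _ _)))
    exact ⟨w, hw, by rw [← hw']; ring⟩)
  rwa [hD] at hfin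

end Pool.Agent.Run7.h755.LO
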