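import Pool.Agent.Run7.h755.MG.Val
import Pool.Agent.R794.FP.Baire

/-! # Least elements in balls of `F_p((t))` (helper755, for MP_db9079_lc) -/

set_option autoImplicit false

namespace Pool.Agent.Run7.h755.LO

open Function
open Pool.Agent.Run7.h755.MG
open Pool.Agent.Results.MP_db9079_lc.UniformFiniteness

variable {p : ℕ} [hp : Fact p.Prime]

/-- `R` is a linear order on the set `{x | R x x}` -/
def LinOrd {K : Type} (R : K → K → Prop) : Prop :=
  (∀ x y, R x y → R x x ∧ R y y) ∧ (∀ x y, R x y → R y x → x = y) ∧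
    (∀ x y z, R x y → R y z → R x z) ∧ ∀ x y, R x x → R y y → R x y ∨ R y x

theorem exists_least {K I : Type} (R : K → K → Prop) (hR : LinOrd R) (y : I → K)
    (hy : ∀ i, R (y i) (y i)) (s : Finset I) (hs : s.Nonempty) :
    ∃ i ∈ s, ∀ j ∈ s, R (y i) (y j) := by
  classical
  obtain ⟨h1, h2, h3, h4⟩ := hR
  induction s using Finset.induction_on with
  | empty => exact absurd hs (by simp)
  | insert a s ha ih =>
    by_cases h : s.Nonempty
    · obtain ⟨i, hi, hi'⟩ := ih h
      rcases h4 (y a) (y i) (hy a) (hy i) with h5 | h5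
      · refine ⟨a, Finset.mem_insert_self _ _, fun j hj => ?_⟩
        rcases Finset.mem_insert.1 hj with rfl | hj
        · exact hy _
        · exact h3 _ _ _ h5 (hi' j hj)
      · refine ⟨i, Finset.mem_insert_of_mem hi, fun j hj => ?_⟩
        rcases Finset.mem_insert.1 hj with rfl | hj
        · exact h5
        · exact hi' j hj
    · rw [Finset.not_nonempty_iff_eq_empty] at h
      subst h
      refine ⟨a, Finset.mem_insert_self _ _, fun j hj => ?_⟩
      rcases Finset.mem_insert.1 hj with rfl | hj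
      · exact hy _
      · simp at hj

theorem V_of_Ag {k : ℤ} {x y : LaurentSeries (ZMod p)} (h : Pool.Agent.Y697.UF.Ag k x y) :
    V k (y - x) := fun i hi => by rw [HahnSeries.coeff_sub, h i hi, sub_self]

theorem Ag_of_V {k : ℤ} {x y : LaurentSeries (ZMod p)} (h : V k (y - x)) :
    Pool.Agent.Y697.UF.Ag k x y := fun i hi => by
  have := h i hi
  rw [HahnSeries.coeff_sub, sub_eq_zero] at this
  exact this.symm

/-- the intersection of a ball with the set has a least element -/
theorem least (R : LaurentSeries (ZMod p) → LaurentSeries (ZMod p) → Prop) (hR : LinOrd R)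
    (hc : ∀ y, R y y → ClosedSet p {x | R x y}) (d : LaurentSeries (ZMod p)) (hd : R d d) (k : ℤ) :
    ∃ x, R x x ∧ V k (x - d) ∧ ∀ y, R y y → V k (y - d) → R x y := by
  classical
  obtain ⟨r1, r2, r3, r4⟩ := id hR
  obtain ⟨Q, hQ'⟩ : ∃ Q : LaurentSeries (ZMod p) → ℕ → Prop, ∀ (c : LaurentSeries (ZMod p))
      (n : ℕ), Q c n ↔ ∀ y, R y y → V k (y - d) → ∃ z, R z y ∧ V (k + (n : ℤ)) (z - c) :=
    ⟨fun c n => ∀ y, R y y → V k (y - d) → ∃ z, R z y ∧ V (k + (n : ℤ)) (z - c),
      fun _ _ => Iff.rfl⟩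
  have q0 : Q d 0 := by
    rw [hQ']
    intro y hy hyd
    exact ⟨y, hy, by simpa using hyd⟩
  have qs : ∀ (c : LaurentSeries (ZMod p)) (n : ℕ), Q c n →
      ∃ c' : LaurentSeries (ZMod p), V (k + (n : ℤ)) (c' - c) ∧ Q c' (n + 1) := by
    intro c n hn
    rw [hQ'] at hn
    by_contra hcon
    push Not at hcon
    have h1 : ∀ a : ZMod p, ∃ y, R y y ∧ V k (y - d) ∧
        ∀ z, R z y → ¬ V (k + (n + 1 : ℕ)) (z - (c + HahnSeries.single (k + n) a)) := by
      intro a
      have h2 := hcon (c + HahnSeries.single (k + n) a) (by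
        intro i hi
        rw [add_sub_cancel_left, HahnSeries.coeff_single_of_ne hi.ne])
      rw [hQ'] at h2
      push Not at h2
      exact h2
    choose y y1 y2 y3 using h1
    obtain ⟨i, -, hi⟩ := exists_least R hR y y1 Finset.univ Finset.univ_nonempty
    obtain ⟨z, hz, hzc⟩ := hn (y i) (y1 i) (y2 i)
    refine y3 ((z - c).coeff (k + n)) z (r3 _ _ _ hz (hi _ (Finset.mem_univ _))) ?_
    intro j hj
    have e : z - (c + HahnSeries.single (k + n) ((z - c).coeff (k + n))) =
        (z - c) - HahnSeries.single (k + n) ((z - c).coeff (k + n)) := by ring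
    have e2 : ((z - c) - HahnSeries.single (k + (n : ℤ)) ((z - c).coeff (k + n)) :
        LaurentSeries (ZMod p)).coeff j = (z - c).coeff j -
        (HahnSeries.single (k + (n : ℤ)) ((z - c).coeff (k + n)) :
          LaurentSeries (ZMod p)).coeff j := HahnSeries.coeff_sub
    rw [e, e2]
    push_cast at hj
    rcases (show j < k + n ∨ j = k + n by omega) with h | rfl
    · rw [hzc j h, HahnSeries.coeff_single_of_ne h.ne, sub_zero]
    · rw [HahnSeries.coeff_single_same, sub_self]
  choose g g1 g2 using qs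
  obtain ⟨u, hu⟩ : ∃ u : (n : ℕ) → {c // Q c n}, u = fun n =>
      Nat.rec (motive := fun n => {c // Q c n}) ⟨d, q0⟩ (fun n c => ⟨g c.1 n c.2, g2 _ _ _⟩) n :=
    ⟨_, rfl⟩
  have hu0 : (u 0).1 = d := by rw [hu]; rfl
  have hu1 : ∀ n : ℕ, V (k + (n : ℤ)) ((u (n + 1)).1 - (u n).1) := by
    intro n
    have e : (u (n + 1)).1 = g (u n).1 n (u n).2 := by rw [hu]
    rw [e]
    exact g1 _ _ _
  obtain ⟨x, hx⟩ := Pool.Agent.R794.FP.exists_limit (fun n => (u n).1) (fun n : ℕ => k + n)
    (fun n => by push_cast; omega) fun n => Ag_of_V (hu1 n)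
  have hx0 : V k (x - d) := by
    have h1 := V_of_Ag (hx 0)
    simp only [hu0] at h1
    simpa using h1
  have hall : ∀ y, R y y → V k (y - d) → R x y := by
    intro y hy hyd
    by_contra hn
    obtain ⟨b, hb, hb'⟩ := hc y hy x hn
    obtain ⟨r, hr⟩ := Pool.Agent.Y697.UF.ball_of b hb
    obtain ⟨n, hkn⟩ : ∃ n : ℕ, r ≤ k + n := ⟨(r - k).toNat, by omega⟩
    obtain ⟨z, hz, hzu⟩ := ((hQ' _ _).1 (u n).2) y hy hyd
    obtain ⟨w, hw, hw'⟩ := hr x z (by
      refine Ag_of_V ?_
      have e : z - x = (z - (u n).1) - (x - (u n).1) := by ring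
      rw [e]
      exact V_sub (hzu.mono hkn) ((V_of_Ag (hx n)).mono hkn))
    exact hb' z hz ⟨w, hw, by rw [← hw']; ring⟩
  exact ⟨x, (r1 _ _ (hall d hd (by rw [sub_self]; exact V_zero k))).1, hx0, hall⟩

/-- the least elements of the balls of radius `k` in the ball of radius `l` about 0 -/
def FM (R : LaurentSeries (ZMod p) → LaurentSeries (ZMod p) → Prop) (k l : ℤ) :
    Set (LaurentSeries (ZMod p)) :=
  {x | R x x ∧ V l x ∧ ∀ y, R y y → V k (y - x) → R x y}

theorem FM_finite (R : LaurentSeries (ZMod p) → LaurentSeries (ZMod p) → Prop) (hR : LinOrd R)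
    (k l : ℤ) : (FM R k l).Finite := by
  classical
  refine Set.Finite.of_finite_image (f := fun (x : LaurentSeries (ZMod p))
    (i : (Finset.Ico l k : Finset ℤ)) => x.coeff i) (Set.toFinite _) ?_
  intro x hx y hy hxy
  have h1 : V k (y - x) := by
    intro i hi
    rw [HahnSeries.coeff_sub, sub_eq_zero]
    by_cases hl : i < l
    · rw [hx.2.1 i hl, hy.2.1 i hl]
    · exact (congrFun hxy ⟨i, Finset.mem_Ico.2 ⟨not_lt.1 hl, hi⟩⟩).symm
  have h2 : V k (x - y) := by
    have := V_neg h1
    rwa [neg_sub] at this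
  exact hR.2.1 x y (hx.2.2 y hy.1 h1) (hy.2.2 x hx.1 h2)

/-- if the sets of the least elements have at most `N` elements then so has the whole set -/
theorem bound (R : LaurentSeries (ZMod p) → LaurentSeries (ZMod p) → Prop) (hR : LinOrd R)
    (hc : ∀ y, R y y → ClosedSet p {x | R x y}) (N : ℕ) (hN : ∀ k l, (FM R k l).ncard ≤ N) :
    {x | R x x}.Finite := by
  classical
  by_contra hinf
  obtain ⟨G, hG, hGN⟩ := Set.Infinite.exists_subset_card_eq (s := {x | R x x}) hinf (N + 1)
  obtain ⟨l, hl⟩ : ∃ l : ℤ, ∀ d ∈ G, V l d := by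
    obtain ⟨l, hl⟩ := (G.image fun d => d.order).bddBelow
    exact ⟨l, fun d hd => (V_order d).mono (hl (Finset.mem_coe.2 (Finset.mem_image_of_mem _ hd)))⟩
  obtain ⟨k, hlk, hk⟩ : ∃ k : ℤ, l ≤ k ∧ ∀ d ∈ G, ∀ e ∈ G, V k (d - e) → d = e := by
    obtain ⟨k, hk⟩ := ((G ×ˢ G).image fun de => (de.1 - de.2).order).bddAbove
    refine ⟨max l (k + 1), le_max_left _ _, fun d hd e he hde => ?_⟩
    by_contra hne
    have h1 := hk (Finset.mem_coe.2 (Finset.mem_image_of_mem _ (Finset.mk_mem_product hd he)))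
    have h2 := (hde.mono (le_max_right l (k + 1))) (d - e).order (by
      simp only at h1
      omega)
    exact coeff_order_ne (sub_ne_zero.2 hne) h2
  have h1 : ∀ d : G, ∃ x, x ∈ FM R k l ∧ V k (x - (d : LaurentSeries (ZMod p))) := by
    rintro ⟨d, hd⟩
    obtain ⟨x, x1, x2, x3⟩ := least R hR hc d (hG (Finset.mem_coe.2 hd)) k
    refine ⟨x, ⟨x1, ?_, fun y hy hyx => x3 y hy ?_⟩, x2⟩
    · have e : x = (x - d) + d := by ring
      rw [e]
      exact V_add (x2.mono hlk) (hl d hd)
    · have e : y - d = (y - x) + (x - d) := by ring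
      rw [e]
      exact V_add hyx x2
  choose f f1 f2 using h1
  have hinj : Injective f := by
    intro d e hde
    apply Subtype.ext
    refine hk d d.2 e e.2 ?_
    have h3 : (d : LaurentSeries (ZMod p)) - e = (f e - e) - (f d - d) := by
      rw [hde]
      ring
    rw [h3]
    exact V_sub (f2 e) (f2 d)
  have h2 : G.card ≤ (FM R k l).ncard := by
    rw [← Fintype.card_coe, ← Nat.card_eq_fintype_card, ← Set.ncard_univ,
      ← Set.ncard_image_of_injective _ hinj]
    refine Set.ncard_le_ncard ?_ (FM_finite R hR k l)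
    rintro _ ⟨d, -, rfl⟩
    exact f1 d
  have := hN k l
  omega

end Pool.Agent.Run7.h755.LO
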